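import Pool.Agent.H8.TW.Conj

/-!
# Twists by elements of an extension and their conjugates

`K` is an extension of the number field `k`, the polynomials `f`, `g` have coefficients in `𝓞 k`,
and `d` runs over nonzero elements of `𝓞 K`.  The surfaces `X_d` and `X_(σ d)` have the same `L₂`, so
each `d` may be counted once for each of its conjugates (inequivalent modulo squares).
-/

open NumberField IsDedekindDomain Filter Topology Polynomial

namespace Pool.Agent.H8.TW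

open Pool.Agent.H1.Tate

noncomputable section

variable {k K : Type*} [Field k] [NumberField k] [Field K] [NumberField K] [Algebra k K]

/-- the automorphism of the ring of integers -/
abbrev ring (σ : K ≃ₐ[k] K) : 𝓞 K ≃+* 𝓞 K := RingOfIntegers.mapRingEquiv (σ : K ≃+* K)

omit [NumberField k] [NumberField K] in
lemma coe_ring (σ : K ≃ₐ[k] K) (d : 𝓞 K) : ((ring σ d : 𝓞 K) : K) = σ d := rfl

lemma ring_algebraMap (σ : K ≃ₐ[k] K) (c : 𝓞 k) :
    ring σ (algebraMap (𝓞 k) (𝓞 K) c) = algebraMap (𝓞 k) (𝓞 K) c := by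
  apply RingOfIntegers.coe_injective
  exact σ.commutes (c : k)

lemma map_ring (σ : K ≃ₐ[k] K) (f : (𝓞 k)[X]) :
    (f.map (algebraMap (𝓞 k) (𝓞 K))).map (ring σ : 𝓞 K →+* 𝓞 K) =
      f.map (algebraMap (𝓞 k) (𝓞 K)) := by
  rw [Polynomial.map_map]
  congr 1
  ext c
  exact congrArg _ (ring_algebraMap σ c)

/-- Conjugate twists by elements of an extension of curves over `k` have the same `L2`. -/
theorem L2_conj (σ : K ≃ₐ[k] K) (f g : (𝓞 k)[X]) (d : 𝓞 K)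
    (bad : HeightOneSpectrum (𝓞 K) → Multiset ℂ) (s : ℂ) :
    L2 (C (ring σ d) * f.map (algebraMap (𝓞 k) (𝓞 K))) (g.map (algebraMap (𝓞 k) (𝓞 K)))
      (fun v => bad ((act (ring σ)).symm v)) s =
    L2 (C d * f.map (algebraMap (𝓞 k) (𝓞 K))) (g.map (algebraMap (𝓞 k) (𝓞 K))) bad s := by
  have h := L2_act (ring σ) (C d * f.map (algebraMap (𝓞 k) (𝓞 K)))
    (g.map (algebraMap (𝓞 k) (𝓞 K))) (fun v => bad ((act (ring σ)).symm v)) s
  rw [Polynomial.map_mul, map_C, map_ring, map_ring] at h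
  simp only [Equiv.symm_apply_apply] at h
  exact h

section main

variable {f g : (𝓞 k)[X]} {g₁ g₂ : ℕ}

omit [NumberField k] [NumberField K] in
lemma separable_up {f : (𝓞 k)[X]} (hsf : (f.map (algebraMap (𝓞 k) k)).Separable) :
    ((f.map (algebraMap (𝓞 k) (𝓞 K))).map (algebraMap (𝓞 K) K)).Separable := by
  have h : (f.map (algebraMap (𝓞 k) (𝓞 K))).map (algebraMap (𝓞 K) K) =
      (f.map (algebraMap (𝓞 k) k)).map (algebraMap k K) := by
    rw [Polynomial.map_map, Polynomial.map_map]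
    congr 1
  rw [h]
  exact hsf.map

omit [NumberField k] [NumberField K] in
lemma natDegree_up (f : (𝓞 k)[X]) :
    (f.map (algebraMap (𝓞 k) (𝓞 K))).natDegree = f.natDegree :=
  natDegree_map_eq_of_injective (RingOfIntegers.algebraMap.injective k K) f

variable (P : Finset ((K ≃ₐ[k] K) × 𝓞 K))

omit [NumberField k] [NumberField K] in
lemma ring_inj (hP : ∀ p ∈ P, ∀ q ∈ P, p ≠ q → ¬ IsSquare (p.1 (p.2 : K) * q.1 (q.2 : K)))
    {p q : (K ≃ₐ[k] K) × 𝓞 K} (hp : p ∈ P) (hq : q ∈ P) (h : ring p.1 p.2 = ring q.1 q.2) :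
    p = q := by
  by_contra hne
  apply hP p hp q hq hne
  have : p.1 (p.2 : K) = q.1 (q.2 : K) := by
    rw [← coe_ring, ← coe_ring, h]
  rw [this]
  exact ⟨_, rfl⟩

/-- Mean square over a set of conjugates. -/
theorem conj_mean_square (hf : f.natDegree = 2 * g₁ + 1) (hg : g.natDegree = 2 * g₂ + 1)
    (hsf : (f.map (algebraMap (𝓞 k) k)).Separable) (hsg : (g.map (algebraMap (𝓞 k) k)).Separable)
    (hd : ∀ p ∈ P, p.2 ≠ 0)
    (hP : ∀ p ∈ P, ∀ q ∈ P, p ≠ q → ¬ IsSquare (p.1 (p.2 : K) * q.1 (q.2 : K)))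
    {bad : 𝓞 K → HeightOneSpectrum (𝓞 K) → Multiset ℂ}
    (hbad : ∀ p ∈ P, ∀ v, ∀ α ∈ bad p.2 v, ‖α‖ ≤ Ideal.absNorm v.asIdeal) {ε : ℝ} (hε : 0 < ε) :
    ∀ᶠ s : ℝ in 𝓝[>] 2, ∑ p ∈ P, (Real.log ‖L2 (C p.2 * f.map (algebraMap (𝓞 k) (𝓞 K)))
      (g.map (algebraMap (𝓞 k) (𝓞 K))) (bad p.2) (s : ℂ)‖ / Real.log (1 / (s - 2)) - 2) ^ 2 ≤
        (4 * g₁ * g₂ : ℝ) ^ 2 + ε := by
  classical
  set F := f.map (algebraMap (𝓞 k) (𝓞 K)) with hF
  set G := g.map (algebraMap (𝓞 k) (𝓞 K)) with hG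
  set D : Finset (𝓞 K) := P.image fun p => ring p.1 p.2 with hD
  let bad' : 𝓞 K → HeightOneSpectrum (𝓞 K) → Multiset ℂ := fun d' =>
    if h : ∃ p ∈ P, ring p.1 p.2 = d' then
      fun v => bad h.choose.2 ((act (ring h.choose.1)).symm v) else fun _ => 0
  have hbad' : ∀ p ∈ P, bad' (ring p.1 p.2) = fun v => bad p.2 ((act (ring p.1)).symm v) := by
    intro p hp
    have h : ∃ q ∈ P, ring q.1 q.2 = ring p.1 p.2 := ⟨p, hp, rfl⟩
    have hc : h.choose = p := ring_inj P hP h.choose_spec.1 hp h.choose_spec.2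
    simp only [bad', dif_pos h, hc]
  have hsq : ∀ p ∈ P, ∀ q ∈ P, ring p.1 p.2 ≠ ring q.1 q.2 →
      ¬ IsSquare (algebraMap (𝓞 K) K (ring p.1 p.2 * ring q.1 q.2)) := by
    intro p hp q hq hne hs
    refine hP p hp q hq (fun h => hne (by rw [h])) ?_
    rw [map_mul] at hs
    exact hs
  have key := mean_square' (k := K) (f := F) (g := G) (g₁ := g₁) (g₂ := g₂)
    (by rw [hF, natDegree_up, hf]) (by rw [hG, natDegree_up, hg]) (separable_up hsf)
    (separable_up hsg) (D := D) (bad := bad')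
    (by
      intro x hx
      rw [hD, Finset.mem_image] at hx
      obtain ⟨p, hp, rfl⟩ := hx
      exact (map_ne_zero_iff _ (ring p.1).injective).2 (hd p hp))
    (by
      intro x hx y hy hxy
      rw [hD, Finset.mem_image] at hx hy
      obtain ⟨p, hp, rfl⟩ := hx
      obtain ⟨q, hq, rfl⟩ := hy
      exact hsq p hp q hq hxy)
    (by
      intro x hx v α hα
      rw [hD, Finset.mem_image] at hx
      obtain ⟨p, hp, rfl⟩ := hx
      rw [hbad' p hp] at hα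
      have h1 := hbad p hp _ α hα
      rwa [← absNorm_act (ring p.1), Equiv.apply_symm_apply] at h1) hε
  filter_upwards [key] with s hs
  rw [hD, Finset.sum_image (fun p hp q hq h => ring_inj P hP hp hq h)] at hs
  refine le_of_eq_of_le (Finset.sum_congr rfl fun p hp => ?_) hs
  rw [hbad' p hp, hF, hG, L2_conj]

lemma tendsto_sub_one : Tendsto (fun s : ℝ => s - 1) (𝓝[>] 2) (𝓝[>] 1) := by
  rw [tendsto_nhdsWithin_iff]
  constructor
  · have : Tendsto (fun s : ℝ => s - 1) (𝓝 2) (𝓝 (2 - 1)) := tendsto_id.sub_const 1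
    norm_num at this
    exact this.mono_left nhdsWithin_le_nhds
  · filter_upwards [self_mem_nhdsWithin] with s hs
    have : (2 : ℝ) < s := hs
    simp only [Set.mem_Ioi]
    linarith

/-- a pole gives the growth -/
lemma tendsto_of_hasPole {L : ℂ → ℂ} {r : ℤ} (hr : HasPole L 2 r) :
    Tendsto (fun s : ℝ => Real.log ‖L (s : ℂ)‖ / Real.log (1 / (s - 2))) (𝓝[>] 2) (𝓝 r) := by
  have h0 := (Pool.Agent.H3.TatePole.HasPoleOfOrder.tendsto hr).comp tendsto_sub_one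
  refine h0.congr fun s => ?_
  have e1 : (s - 1 : ℝ) + 1 = s := by ring
  have e2 : Pool.Agent.H3.TatePole.Lam (s - 1) = Real.log (1 / (s - 2)) := by
    unfold Pool.Agent.H3.TatePole.Lam
    rw [show s - 1 - 1 = s - 2 by ring]
  simp only [Function.comp_apply, e1, e2]

/-- pole orders -/
theorem conj_pole (hf : f.natDegree = 2 * g₁ + 1) (hg : g.natDegree = 2 * g₂ + 1)
    (hsf : (f.map (algebraMap (𝓞 k) k)).Separable) (hsg : (g.map (algebraMap (𝓞 k) k)).Separable)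
    (hd : ∀ p ∈ P, p.2 ≠ 0)
    (hP : ∀ p ∈ P, ∀ q ∈ P, p ≠ q → ¬ IsSquare (p.1 (p.2 : K) * q.1 (q.2 : K)))
    {bad : 𝓞 K → HeightOneSpectrum (𝓞 K) → Multiset ℂ}
    (hbad : ∀ p ∈ P, ∀ v, ∀ α ∈ bad p.2 v, ‖α‖ ≤ Ideal.absNorm v.asIdeal) {r : 𝓞 K → ℤ}
    (hr : ∀ p ∈ P, HasPole (L2 (C p.2 * f.map (algebraMap (𝓞 k) (𝓞 K)))
      (g.map (algebraMap (𝓞 k) (𝓞 K))) (bad p.2)) 2 (r p.2)) :
    ∑ p ∈ P, (r p.2 - 2) ^ 2 ≤ (4 * g₁ * g₂ : ℤ) ^ 2 := by
  have h1 : Tendsto (fun s : ℝ => ∑ p ∈ P, (Real.log ‖L2 (C p.2 * f.map (algebraMap (𝓞 k) (𝓞 K)))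
      (g.map (algebraMap (𝓞 k) (𝓞 K))) (bad p.2) (s : ℂ)‖ / Real.log (1 / (s - 2)) - 2) ^ 2)
      (𝓝[>] 2) (𝓝 (∑ p ∈ P, ((r p.2 : ℝ) - 2) ^ 2)) :=
    tendsto_finsetSum P fun p hp => ((tendsto_of_hasPole (hr p hp)).sub_const 2).pow 2
  have h3 : ∀ ε : ℝ, 0 < ε → ∑ p ∈ P, ((r p.2 : ℝ) - 2) ^ 2 ≤ (4 * g₁ * g₂ : ℝ) ^ 2 + ε :=
    fun ε hε => le_of_tendsto h1 (conj_mean_square P hf hg hsf hsg hd hP hbad hε)
  have h4 := le_of_forall_pos_le_add h3
  exact_mod_cast h4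

end main

section single

variable {f g : (𝓞 k)[X]} {g₁ g₂ : ℕ} (T : Finset (K ≃ₐ[k] K)) {d : 𝓞 K}

lemma pairs_aux (hT : ∀ σ ∈ T, ∀ τ ∈ T, σ ≠ τ → ¬ IsSquare (σ (d : K) * τ (d : K))) :
    ∀ p ∈ T ×ˢ ({d} : Finset (𝓞 K)), ∀ q ∈ T ×ˢ ({d} : Finset (𝓞 K)), p ≠ q →
      ¬ IsSquare (p.1 (p.2 : K) * q.1 (q.2 : K)) := by
  rintro ⟨σ, x⟩ hp ⟨τ, y⟩ hq hne
  rw [Finset.mem_product, Finset.mem_singleton] at hp hq
  obtain ⟨hσ, hx⟩ := hp
  obtain ⟨hτ, hy⟩ := hq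
  simp only at hσ hτ hx hy
  subst hx hy
  exact hT σ hσ τ hτ fun h => hne (by rw [h])

/-- The growth of `L2` for a single twist, from the number of inequivalent conjugates. -/
theorem single_growth (hf : f.natDegree = 2 * g₁ + 1) (hg : g.natDegree = 2 * g₂ + 1)
    (hsf : (f.map (algebraMap (𝓞 k) k)).Separable) (hsg : (g.map (algebraMap (𝓞 k) k)).Separable)
    (hd : d ≠ 0)
    (hT : ∀ σ ∈ T, ∀ τ ∈ T, σ ≠ τ → ¬ IsSquare (σ (d : K) * τ (d : K)))
    {bad : HeightOneSpectrum (𝓞 K) → Multiset ℂ}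
    (hbad : ∀ v, ∀ α ∈ bad v, ‖α‖ ≤ Ideal.absNorm v.asIdeal) {ε : ℝ} (hε : 0 < ε) :
    ∀ᶠ s : ℝ in 𝓝[>] 2, T.card * (Real.log ‖L2 (C d * f.map (algebraMap (𝓞 k) (𝓞 K)))
      (g.map (algebraMap (𝓞 k) (𝓞 K))) bad (s : ℂ)‖ / Real.log (1 / (s - 2)) - 2) ^ 2 ≤
        (4 * g₁ * g₂ : ℝ) ^ 2 + ε := by
  classical
  have key := conj_mean_square (T ×ˢ ({d} : Finset (𝓞 K))) hf hg hsf hsg
    (by
      intro p hp
      rw [Finset.mem_product, Finset.mem_singleton] at hp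
      rw [hp.2]
      exact hd) (pairs_aux T hT) (bad := fun _ => bad) (fun p _ => hbad) hε
  filter_upwards [key] with s hs
  rw [Finset.sum_product] at hs
  simp only [Finset.sum_singleton, Finset.sum_const, nsmul_eq_mul] at hs
  exact hs

/-- pole orders of a single twist -/
theorem single_pole (hf : f.natDegree = 2 * g₁ + 1) (hg : g.natDegree = 2 * g₂ + 1)
    (hsf : (f.map (algebraMap (𝓞 k) k)).Separable) (hsg : (g.map (algebraMap (𝓞 k) k)).Separable)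
    (hd : d ≠ 0)
    (hT : ∀ σ ∈ T, ∀ τ ∈ T, σ ≠ τ → ¬ IsSquare (σ (d : K) * τ (d : K)))
    {bad : HeightOneSpectrum (𝓞 K) → Multiset ℂ}
    (hbad : ∀ v, ∀ α ∈ bad v, ‖α‖ ≤ Ideal.absNorm v.asIdeal)
    (hcard : (4 * g₁ * g₂) ^ 2 < T.card) {r : ℤ}
    (hr : HasPole (L2 (C d * f.map (algebraMap (𝓞 k) (𝓞 K)))
      (g.map (algebraMap (𝓞 k) (𝓞 K))) bad) 2 r) : r = 2 := by
  classical
  have h1 := conj_pole (T ×ˢ ({d} : Finset (𝓞 K))) hf hg hsf hsg
    (by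
      intro p hp
      rw [Finset.mem_product, Finset.mem_singleton] at hp
      rw [hp.2]
      exact hd) (pairs_aux T hT) (bad := fun _ => bad) (fun p _ => hbad) (r := fun _ => r)
    (by
      intro p hp
      rw [Finset.mem_product, Finset.mem_singleton] at hp
      rw [hp.2]
      exact hr)
  rw [Finset.sum_product] at h1
  simp only [Finset.sum_const, Finset.card_singleton, Nat.cast_one, one_mul, nsmul_eq_mul] at h1
  by_contra hne
  have h2 : 1 ≤ (r - 2) ^ 2 := by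
    have : r - 2 ≠ 0 := sub_ne_zero.mpr hne
    have := sq_pos_of_ne_zero this
    omega
  have h3 : ((4 * g₁ * g₂ : ℤ)) ^ 2 < (T.card : ℤ) := by exact_mod_cast hcard
  nlinarith

end single

end

end Pool.Agent.H8.TW
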