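import Mathlib
import Pool.Agent.H3.Artin.Final

/-!
# The dual form of the Bessel inequality for the defects over Artin twists
-/

open NumberField IsDedekindDomain Filter Topology Module
open scoped TensorProduct

namespace Pool.Agent.H8.TW

open Pool.Agent.H3.TatePole Pool.Agent.H3.Cheb Pool.Agent.H3.Artin

section Main

variable {k : Type*} [Field k] [NumberField k] {Ω : Type*} [Field Ω] [Algebra k Ω] [IsGalois k Ω]
variable {V A : Type*} [AddCommGroup V] [Module ℂ V] [FiniteDimensional ℂ V]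
  [AddCommGroup A] [Module ℂ A] [FiniteDimensional ℂ A]
variable [IsAlgClosed Ω]

/-- the value of the character at the geometric Frobenius -/
noncomputable def frobChar (M : IntermediateField k Ω) [FiniteDimensional k M] [Normal k M]
    {W : Type*} [AddCommGroup W] [Module ℂ W] (χ : Representation ℂ Gal(M/k) W)
    (v : HeightOneSpectrum (𝓞 k)) : ℂ :=
  χ.character (AlgEquiv.restrictNormalHom M (frobeniusAt Ω v).φ⁻¹)

lemma frobChar_le (M : IntermediateField k Ω) [FiniteDimensional k M] [Normal k M]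
    {W : Type*} [AddCommGroup W] [Module ℂ W] (χ : Representation ℂ Gal(M/k) W)
    (v : HeightOneSpectrum (𝓞 k)) : ‖frobChar M χ v‖ ≤ ∑ g, ‖χ.character g‖ :=
  Finset.single_le_sum (f := fun g => ‖χ.character g‖) (fun _ _ => norm_nonneg _)
    (Finset.mem_univ (AlgEquiv.restrictNormalHom M (frobeniusAt Ω v).φ⁻¹))

/-- the defects are the means of one bounded function against the characters -/
theorem defect_repr {𝒰 : Ultrafilter ℝ} (h𝒰 : (𝒰 : Filter ℝ) ≤ 𝓝[>] 1)
    (ρ : Representation ℂ Gal(Ω/k) V) (hρ : WeightsLeTwo (RingHom.id ℂ) ρ)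
    (α : Representation ℂ Gal(Ω/k) A) (L : IntermediateField k Ω) [FiniteDimensional k L]
    [Normal k L] (hα : ∀ σ ∈ L.fixingSubgroup, α σ = 1)
    (ω : Gal(Ω/k) →* ℂ)
    (hω : {𝔭 : HeightOneSpectrum (𝓞 k) | ω (frobeniusAt Ω 𝔭).φ⁻¹ ≠ Ideal.absNorm 𝔭.asIdeal}.Finite)
    (cl : A →ₗ[ℂ] V) (hcl : Function.Injective cl)
    (hclω : ∀ σ a, ρ σ (cl a) = ω σ • cl (α σ a))
    (M : IntermediateField k Ω) [FiniteDimensional k M] [Normal k M]
    {ι : Type*} (W : ι → Type*) [∀ i, AddCommGroup (W i)] [∀ i, Module ℂ (W i)]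
    [∀ i, FiniteDimensional ℂ (W i)] (χ : ∀ i, Representation ℂ Gal(M/k) (W i)) :
    ∃ δ : HeightOneSpectrum (𝓞 k) → ℂ, (∀ v, ‖δ v‖ ≤ (finrank ℂ V : ℝ) - finrank ℂ A) ∧
      ∀ i, mu 𝒰 (ctr (RingHom.id ℂ) (twist ρ (χ i))) - finrank ℂ (twist α (χ i)).invariants =
        mu 𝒰 (fun v => (δ v * frobChar M (χ i) v).re) := by
  classical
  let good : HeightOneSpectrum (𝓞 k) → Prop := fun 𝔭 =>
    Unram ρ 𝔭 ∧ ω (frobeniusAt Ω 𝔭).φ⁻¹ = Ideal.absNorm 𝔭.asIdeal
  let δ : HeightOneSpectrum (𝓞 k) → ℂ := fun 𝔭 => if good 𝔭 then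
    ρ.character (frobeniusAt Ω 𝔭).φ⁻¹ / (nrm 𝔭 : ℝ) - α.character (frobeniusAt Ω 𝔭).φ⁻¹ else 0
  have hBpos : 0 ≤ (finrank ℂ V : ℝ) - finrank ℂ A := by
    have := LinearMap.finrank_le_finrank_of_injective hcl
    have h2 : (finrank ℂ A : ℝ) ≤ finrank ℂ V := by exact_mod_cast this
    linarith
  have hδ : ∀ 𝔭, ‖δ 𝔭‖ ≤ (finrank ℂ V : ℝ) - finrank ℂ A := by
    intro 𝔭
    change ‖if good 𝔭 then _ else (0 : ℂ)‖ ≤ _
    split_ifs with hg
    · have hN := nrm_pos 𝔭
      have hNc : ((nrm 𝔭 : ℝ) : ℂ) ≠ 0 := by exact_mod_cast hN.ne'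
      have h1 := trace_sub_bound (ρ (frobeniusAt Ω 𝔭).φ⁻¹) cl hcl
        (((nrm 𝔭 : ℝ) : ℂ) • α (frobeniusAt Ω 𝔭).φ⁻¹) (fun a => by
          rw [hclω, hg.2, LinearMap.smul_apply, map_smul]
          congr 1) (nrm 𝔭) (fun z hz => by
          apply base_weights hρ 𝔭 (frobeniusAt Ω 𝔭) z
          rw [charpoly_geomFrob_of_unramified ρ _
            (hg.1 _ (frobeniusAt Ω 𝔭).isPrime (frobeniusAt Ω 𝔭).under_eq)]
          exact hz)
      rw [map_smul, smul_eq_mul] at h1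
      have e : ρ.character (frobeniusAt Ω 𝔭).φ⁻¹ / ((nrm 𝔭 : ℝ) : ℂ) -
          α.character (frobeniusAt Ω 𝔭).φ⁻¹ =
          (LinearMap.trace ℂ V (ρ (frobeniusAt Ω 𝔭).φ⁻¹) - ((nrm 𝔭 : ℝ) : ℂ) *
            LinearMap.trace ℂ A (α (frobeniusAt Ω 𝔭).φ⁻¹)) / ((nrm 𝔭 : ℝ) : ℂ) := by
        unfold Representation.character
        field_simp
      rw [e, norm_div, Complex.norm_real, Real.norm_of_nonneg hN.le, div_le_iff₀ hN]
      exact h1
    · rw [norm_zero]
      exact hBpos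
  refine ⟨δ, hδ, fun i => ?_⟩
  -- the means
  have hw := fun 𝔭 D z hz => twist_weights hρ M (χ i) 𝔭 D z hz
  have hbctr := (log_LFunction_base (twist ρ (χ i)) hw).1
  have hmean := mean_character (L ⊔ M) (twist α (χ i)) (fun σ hσ => by
    have h1 : σ ∈ L.fixingSubgroup := IntermediateField.fixingSubgroup_antitone le_sup_left hσ
    have h2 : σ ∈ M.fixingSubgroup := IntermediateField.fixingSubgroup_antitone le_sup_right hσ
    have h3 : AlgEquiv.restrictNormalHom M σ = 1 := by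
      have h3 : σ ∈ (AlgEquiv.restrictNormalHom (F := k) (K₁ := Ω) M).ker := by
        rw [IntermediateField.restrictNormalHom_ker]
        exact h2
      exact h3
    have h4 : twist α (χ i) σ = TensorProduct.map (α σ) (χ i (AlgEquiv.restrictNormalHom M σ)) := rfl
    rw [h4, hα σ h1, h3, map_one]
    exact TensorProduct.map_id)
  have hmu := mu_eq_of_mean h𝒰 hmean
  have hbδ : Bdd (fun v => (δ v * frobChar M (χ i) v).re) := by
    refine ⟨((finrank ℂ V : ℝ) - finrank ℂ A) * ∑ g, ‖(χ i).character g‖, fun v =>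
      (Complex.abs_re_le_norm _).trans ?_⟩
    rw [norm_mul]
    exact mul_le_mul (hδ v) (frobChar_le M (χ i) v) (norm_nonneg _) hBpos
  have hbα : Bdd (fun 𝔭 : HeightOneSpectrum (𝓞 k) =>
      ((twist α (χ i)).character (frobeniusAt Ω 𝔭).φ⁻¹).re) := by
    have hs : Function.Surjective
        (AlgEquiv.restrictNormalHom (F := k) (K₁ := Ω) ((L ⊔ M : IntermediateField k Ω))) :=
      AlgEquiv.restrictNormalHom_surjective Ω
    obtain ⟨τ', hτ'⟩ := exists_descend
      (AlgEquiv.restrictNormalHom (F := k) (K₁ := Ω) ((L ⊔ M : IntermediateField k Ω))) hs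
      (twist α (χ i)) (fun σ hσ => by
        have hσ' := restrictNormal_eq_one hσ
        have h1 : σ ∈ L.fixingSubgroup := IntermediateField.fixingSubgroup_antitone le_sup_left hσ'
        have h2 : σ ∈ M.fixingSubgroup := IntermediateField.fixingSubgroup_antitone le_sup_right hσ'
        have h3 : AlgEquiv.restrictNormalHom M σ = 1 := by
          have h3 : σ ∈ (AlgEquiv.restrictNormalHom (F := k) (K₁ := Ω) M).ker := by
            rw [IntermediateField.restrictNormalHom_ker]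
            exact h2
          exact h3
        have h4 : twist α (χ i) σ =
          TensorProduct.map (α σ) (χ i (AlgEquiv.restrictNormalHom M σ)) := rfl
        rw [h4, hα σ h1, h3, map_one]
        exact TensorProduct.map_id)
    have h5 := bdd_comp (k := k) (fun g => (τ'.character g).re) (fun 𝔭 =>
      AlgEquiv.restrictNormalHom ((L ⊔ M : IntermediateField k Ω)) (frobeniusAt Ω 𝔭).φ⁻¹)
    refine h5.imp fun C hC v => ?_
    have h6 := hC v
    have h7 : τ'.character (AlgEquiv.restrictNormalHom ((L ⊔ M : IntermediateField k Ω))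
        (frobeniusAt Ω v).φ⁻¹) = (twist α (χ i)).character (frobeniusAt Ω v).φ⁻¹ := by
      unfold Representation.character
      rw [hτ']
    beta_reduce
    rw [← h7]
    exact h6
  rw [← hmu, sub_eq_iff_eq_add, ← mu_add h𝒰 hbδ hbα]
  refine mu_congr_finite h𝒰 hbctr (hbδ.add hbα) ?_
  refine (((finite_not_unram hρ).union hω).union (finite_ramified (Ω := Ω) M)).subset fun 𝔭 h𝔭 => ?_
  by_contra hcon
  simp only [Set.mem_union, not_or] at hcon
  obtain ⟨⟨hc1, hc2⟩, hc3⟩ := hcon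
  have hg1 : Unram ρ 𝔭 := by
    by_contra h
    exact hc1 h
  have hg2 : ω (frobeniusAt Ω 𝔭).φ⁻¹ = Ideal.absNorm 𝔭.asIdeal := by
    by_contra h
    exact hc2 h
  have hg3 : ∀ Q : Ideal (𝓞 Ω), Q.IsPrime → Q.under (𝓞 k) = 𝔭.asIdeal →
      ∀ σ ∈ Q.inertia Gal(Ω/k), σ ∈ M.fixingSubgroup := by
    intro Q hQ hQ2 σ hσ
    by_contra h
    exact hc3 ⟨Q, hQ, hQ2, σ, hσ, h⟩
  apply h𝔭
  have hNc : ((nrm 𝔭 : ℝ) : ℂ) ≠ 0 := by exact_mod_cast (nrm_pos 𝔭).ne'
  have hgood : good 𝔭 := ⟨hg1, hg2⟩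
  unfold ctr
  rw [sum_eigs _ (unram_twist (χ i) hg1 hg3), twist_character, twist_character]
  change _ = ((if good 𝔭 then _ else (0 : ℂ)) * _).re + _
  rw [if_pos hgood, ← Complex.add_re, ← Complex.div_ofReal_re]
  congr 1
  change _ = (ρ.character (frobeniusAt Ω 𝔭).φ⁻¹ / (nrm 𝔭 : ℝ) -
    α.character (frobeniusAt Ω 𝔭).φ⁻¹) *
    (χ i).character (AlgEquiv.restrictNormalHom M (frobeniusAt Ω 𝔭).φ⁻¹) + _
  field_simp
  ring

/-- mean value of the norm of a real combination of characters over the finite group -/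
noncomputable def meanNorm {G : Type*} [Group G] {ι : Type*} [Fintype ι] {W : ι → Type*}
    [∀ i, AddCommGroup (W i)] [∀ i, Module ℂ (W i)] (χ : ∀ i, Representation ℂ G (W i))
    (c : ι → ℝ) : ℝ :=
  (∑ᶠ g : G, ‖∑ i, (c i : ℂ) * (χ i).character g‖) / Nat.card G

lemma mean_norm_comb (M : IntermediateField k Ω) [FiniteDimensional k M] [Normal k M]
    {ι : Type*} [Fintype ι] (W : ι → Type*) [∀ i, AddCommGroup (W i)] [∀ i, Module ℂ (W i)]
    [∀ i, FiniteDimensional ℂ (W i)] (χ : ∀ i, Representation ℂ Gal(M/k) (W i)) (c : ι → ℝ) :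
    HasMean (𝓝[>] 1) (fun v : HeightOneSpectrum (𝓞 k) => ‖∑ i, (c i : ℂ) * frobChar M (χ i) v‖)
      (meanNorm χ c) := by
  classical
  have h1 := chebotarev_sym (Ω := Ω) M (fun g => ‖∑ i, (c i : ℂ) * (χ i).character g‖)
    (fun y g => by
      congr 1
      refine Finset.sum_congr rfl fun i _ => ?_
      have e1 := (χ i).char_conj g y⁻¹
      rw [inv_inv] at e1
      rw [e1]) (fun g => by
      rw [← Complex.norm_conj]
      congr 1
      rw [map_sum]
      refine Finset.sum_congr rfl fun i _ => ?_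
      rw [map_mul, Complex.conj_ofReal, character_inv, Complex.conj_conj])
  have h2 : (∑ g : Gal(M/k), ‖∑ i, (c i : ℂ) * (χ i).character g‖) / Fintype.card Gal(M/k) =
      meanNorm χ c := by
    unfold meanNorm
    rw [finsum_eq_sum_of_fintype, Nat.card_eq_fintype_card]
  rw [h2] at h1
  have h3 : (fun v : HeightOneSpectrum (𝓞 k) => ‖∑ i, (c i : ℂ) * frobChar M (χ i) v‖) =
      fun v => ‖∑ i, (c i : ℂ) *
        (χ i).character (AlgEquiv.restrictNormalHom M (frobeniusAt Ω v).φ)‖ := by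
    funext v
    rw [← Complex.norm_conj]
    congr 1
    rw [map_sum]
    refine Finset.sum_congr rfl fun i _ => ?_
    unfold frobChar
    rw [map_mul, Complex.conj_ofReal, map_inv, character_inv, Complex.conj_conj]
  rw [h3]
  exact h1

/-- the dual inequality along an ultrafilter -/
theorem dual_ultra {𝒰 : Ultrafilter ℝ} (h𝒰 : (𝒰 : Filter ℝ) ≤ 𝓝[>] 1)
    (ρ : Representation ℂ Gal(Ω/k) V) (hρ : WeightsLeTwo (RingHom.id ℂ) ρ)
    (α : Representation ℂ Gal(Ω/k) A) (L : IntermediateField k Ω) [FiniteDimensional k L]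
    [Normal k L] (hα : ∀ σ ∈ L.fixingSubgroup, α σ = 1)
    (ω : Gal(Ω/k) →* ℂ)
    (hω : {𝔭 : HeightOneSpectrum (𝓞 k) | ω (frobeniusAt Ω 𝔭).φ⁻¹ ≠ Ideal.absNorm 𝔭.asIdeal}.Finite)
    (cl : A →ₗ[ℂ] V) (hcl : Function.Injective cl)
    (hclω : ∀ σ a, ρ σ (cl a) = ω σ • cl (α σ a))
    (M : IntermediateField k Ω) [FiniteDimensional k M] [Normal k M]
    {ι : Type*} [Fintype ι] (W : ι → Type*) [∀ i, AddCommGroup (W i)] [∀ i, Module ℂ (W i)]
    [∀ i, FiniteDimensional ℂ (W i)] (χ : ∀ i, Representation ℂ Gal(M/k) (W i)) (c : ι → ℝ) :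
    |∑ i, c i * (mu 𝒰 (ctr (RingHom.id ℂ) (twist ρ (χ i))) -
      finrank ℂ (twist α (χ i)).invariants)| ≤
        ((finrank ℂ V : ℝ) - finrank ℂ A) * meanNorm χ c := by
  classical
  obtain ⟨δ, hδ, hrep⟩ := defect_repr h𝒰 ρ hρ α L hα ω hω cl hcl hclω M W χ
  have hBpos : 0 ≤ (finrank ℂ V : ℝ) - finrank ℂ A := by
    have := LinearMap.finrank_le_finrank_of_injective hcl
    have h2 : (finrank ℂ A : ℝ) ≤ finrank ℂ V := by exact_mod_cast this
    linarith
  have hb : ∀ i, Bdd (fun v => (δ v * frobChar M (χ i) v).re) := by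
    intro i
    refine ⟨((finrank ℂ V : ℝ) - finrank ℂ A) * ∑ g, ‖(χ i).character g‖, fun v =>
      (Complex.abs_re_le_norm _).trans ?_⟩
    rw [norm_mul]
    exact mul_le_mul (hδ v) (frobChar_le M (χ i) v) (norm_nonneg _) hBpos
  have hbn : Bdd (fun v : HeightOneSpectrum (𝓞 k) => ‖∑ i, (c i : ℂ) * frobChar M (χ i) v‖) := by
    refine ⟨∑ i, |c i| * ∑ g, ‖(χ i).character g‖, fun v => ?_⟩
    rw [abs_of_nonneg (norm_nonneg _)]
    refine (norm_sum_le _ _).trans (Finset.sum_le_sum fun i _ => ?_)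
    rw [norm_mul, Complex.norm_real, Real.norm_eq_abs]
    exact mul_le_mul_of_nonneg_left (frobChar_le M (χ i) v) (abs_nonneg _)
  have e1 : ∑ i, c i * (mu 𝒰 (ctr (RingHom.id ℂ) (twist ρ (χ i))) -
      finrank ℂ (twist α (χ i)).invariants) =
      mu 𝒰 (fun v => ∑ i, c i * (δ v * frobChar M (χ i) v).re) := by
    rw [mu_sum h𝒰 _ fun i _ => (Bdd.const (c i)).mul (hb i)]
    refine Finset.sum_congr rfl fun i _ => ?_
    rw [hrep i, mu_const_mul h𝒰 _ (hb i)]
  have hpt : ∀ v : HeightOneSpectrum (𝓞 k), |∑ i, c i * (δ v * frobChar M (χ i) v).re| ≤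
      ((finrank ℂ V : ℝ) - finrank ℂ A) * ‖∑ i, (c i : ℂ) * frobChar M (χ i) v‖ := by
    intro v
    have e2 : ∑ i, c i * (δ v * frobChar M (χ i) v).re =
        (δ v * ∑ i, (c i : ℂ) * frobChar M (χ i) v).re := by
      rw [Finset.mul_sum, Complex.re_sum]
      refine Finset.sum_congr rfl fun i _ => ?_
      rw [show δ v * ((c i : ℂ) * frobChar M (χ i) v) = (c i : ℂ) * (δ v * frobChar M (χ i) v) by
        ring, Complex.re_ofReal_mul]
    rw [e2]
    refine (Complex.abs_re_le_norm _).trans ?_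
    rw [norm_mul]
    exact mul_le_mul_of_nonneg_right (hδ v) (norm_nonneg _)
  have hbs : Bdd (fun v => ∑ i, c i * (δ v * frobChar M (χ i) v).re) :=
    Bdd.sum Finset.univ fun i _ => (Bdd.const (c i)).mul (hb i)
  have hbB : Bdd (fun v : HeightOneSpectrum (𝓞 k) => ((finrank ℂ V : ℝ) - finrank ℂ A) *
      ‖∑ i, (c i : ℂ) * frobChar M (χ i) v‖) := (Bdd.const _).mul hbn
  have hval : mu 𝒰 (fun v : HeightOneSpectrum (𝓞 k) => ((finrank ℂ V : ℝ) - finrank ℂ A) *
      ‖∑ i, (c i : ℂ) * frobChar M (χ i) v‖) = ((finrank ℂ V : ℝ) - finrank ℂ A) * meanNorm χ c := by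
    rw [mu_const_mul h𝒰 _ hbn, mu_eq_of_mean h𝒰 (mean_norm_comb M W χ c)]
  rw [e1, abs_le]
  constructor
  · have h1 := mu_mono h𝒰 ((Bdd.const (-1)).mul hbB) hbs fun v => by
      have := (abs_le.mp (hpt v)).1
      linarith
    rw [mu_const_mul h𝒰 _ hbB, hval] at h1
    linarith
  · rw [← hval]
    exact mu_mono h𝒰 hbs hbB fun v => (le_abs_self _).trans (hpt v)

end Main

end Pool.Agent.H8.TW
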