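import Mathlib
import Pool.Agent.H8.TW.Dual

/-!
# The dual inequality for the defects: final forms
-/

open NumberField IsDedekindDomain Filter Topology Module
open scoped TensorProduct

namespace Pool.Agent.H8.TW

open Pool.Agent.H3.TatePole Pool.Agent.H3.Cheb Pool.Agent.H3.Artin

section Main

variable {k : Type*} [Field k] [NumberField k] {Ω : Type*} [Field Ω] [Algebra k Ω] [IsGalois k Ω]
variable {V A : Type*} [AddCommGroup V] [Module ℂ V] [FiniteDimensional ℂ V]
  [AddCommGroup A] [Module ℂ A] [FiniteDimensional ℂ A]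
variable [IsAlgClosed Ω]

lemma shift_tendsto : Tendsto (fun s : ℝ => s - 1) (𝓝[>] 2) (𝓝[>] 1) := by
  rw [tendsto_nhdsWithin_iff]
  constructor
  · have : Continuous (fun s : ℝ => s - 1) := by fun_prop
    have h1 := (this.tendsto 2).mono_left (nhdsWithin_le_nhds (s := Set.Ioi 2))
    have h2 : (2 : ℝ) - 1 = 1 := by norm_num
    rw [h2] at h1
    exact h1
  · filter_upwards [self_mem_nhdsWithin] with s hs
    have : (2 : ℝ) < s := hs
    change (1 : ℝ) < s - 1
    linarith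

/-- the dual inequality, near `s = 2` -/
theorem dual_log
    (ρ : Representation ℂ Gal(Ω/k) V) (hρ : WeightsLeTwo (RingHom.id ℂ) ρ)
    (α : Representation ℂ Gal(Ω/k) A) (L : IntermediateField k Ω) [FiniteDimensional k L]
    [Normal k L] (hα : ∀ σ ∈ L.fixingSubgroup, α σ = 1)
    (ω : Gal(Ω/k) →* ℂ)
    (hω : {𝔭 : HeightOneSpectrum (𝓞 k) | ω (frobeniusAt Ω 𝔭).φ⁻¹ ≠ Ideal.absNorm 𝔭.asIdeal}.Finite)
    (cl : A →ₗ[ℂ] V) (hcl : Function.Injective cl)
    (hclω : ∀ σ a, ρ σ (cl a) = ω σ • cl (α σ a))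
    (M : IntermediateField k Ω) [FiniteDimensional k M] [Normal k M]
    {ι : Type*} [Fintype ι] (W : ι → Type*) [∀ i, AddCommGroup (W i)] [∀ i, Module ℂ (W i)]
    [∀ i, FiniteDimensional ℂ (W i)] (χ : ∀ i, Representation ℂ Gal(M/k) (W i)) (c : ι → ℝ)
    {ε : ℝ} (hε : 0 < ε) :
    ∀ᶠ s : ℝ in 𝓝[>] 2, |∑ i, c i * (Real.log ‖LFunction (RingHom.id ℂ) (twist ρ (χ i)) s‖ /
      Real.log (1 / (s - 2)) - finrank ℂ (twist α (χ i)).invariants)| ≤
      ((finrank ℂ V : ℝ) - finrank ℂ A) * meanNorm χ c + ε := by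
  classical
  have key : ∀ᶠ t : ℝ in 𝓝[>] 1, |∑ i, c i * (Real.log ‖LFunction (RingHom.id ℂ) (twist ρ (χ i))
      ((t + 1 : ℝ) : ℂ)‖ / Lam t - finrank ℂ (twist α (χ i)).invariants)| ≤
      ((finrank ℂ V : ℝ) - finrank ℂ A) * meanNorm χ c + ε := by
    refine Filter.mem_iff_ultrafilter.mpr fun 𝒰 h𝒰 => ?_
    have h1 := dual_ultra h𝒰 ρ hρ α L hα ω hω cl hcl hclω M W χ c
    have h2 : ∀ i, Tendsto (fun t : ℝ => Real.log ‖LFunction (RingHom.id ℂ) (twist ρ (χ i))
        ((t + 1 : ℝ) : ℂ)‖ / Lam t) 𝒰 (𝓝 (mu 𝒰 (ctr (RingHom.id ℂ) (twist ρ (χ i))))) := fun i =>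
      log_tendsto_mu h𝒰 (twist ρ (χ i)) (fun 𝔭 D z hz => twist_weights hρ M (χ i) 𝔭 D z hz)
    have h3 : Tendsto (fun t : ℝ => |∑ i, c i * (Real.log ‖LFunction (RingHom.id ℂ) (twist ρ (χ i))
        ((t + 1 : ℝ) : ℂ)‖ / Lam t - finrank ℂ (twist α (χ i)).invariants)|) 𝒰
        (𝓝 |∑ i, c i * (mu 𝒰 (ctr (RingHom.id ℂ) (twist ρ (χ i))) -
          finrank ℂ (twist α (χ i)).invariants)|) :=
      (tendsto_finsetSum _ fun i _ => ((h2 i).sub_const _).const_mul (c i)).abs
    have h4 : |∑ i, c i * (mu 𝒰 (ctr (RingHom.id ℂ) (twist ρ (χ i))) -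
        finrank ℂ (twist α (χ i)).invariants)| <
          ((finrank ℂ V : ℝ) - finrank ℂ A) * meanNorm χ c + ε := by
      linarith
    exact (h3.eventually_lt_const h4).mono fun t ht => ht.le
  filter_upwards [shift_tendsto.eventually key] with s hs
  have e1 : s - 1 + 1 = s := by ring
  have e2 : Lam (s - 1) = Real.log (1 / (s - 2)) := by
    unfold Lam
    rw [show s - 1 - 1 = s - 2 by ring]
  rw [e1, e2] at hs
  exact hs

/-- the dual inequality for pole orders -/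
theorem dual_pole
    (ρ : Representation ℂ Gal(Ω/k) V) (hρ : WeightsLeTwo (RingHom.id ℂ) ρ)
    (α : Representation ℂ Gal(Ω/k) A) (L : IntermediateField k Ω) [FiniteDimensional k L]
    [Normal k L] (hα : ∀ σ ∈ L.fixingSubgroup, α σ = 1)
    (ω : Gal(Ω/k) →* ℂ)
    (hω : {𝔭 : HeightOneSpectrum (𝓞 k) | ω (frobeniusAt Ω 𝔭).φ⁻¹ ≠ Ideal.absNorm 𝔭.asIdeal}.Finite)
    (cl : A →ₗ[ℂ] V) (hcl : Function.Injective cl)
    (hclω : ∀ σ a, ρ σ (cl a) = ω σ • cl (α σ a))
    (M : IntermediateField k Ω) [FiniteDimensional k M] [Normal k M]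
    {ι : Type*} [Fintype ι] (W : ι → Type*) [∀ i, AddCommGroup (W i)] [∀ i, Module ℂ (W i)]
    [∀ i, FiniteDimensional ℂ (W i)] (χ : ∀ i, Representation ℂ Gal(M/k) (W i)) (c : ι → ℝ)
    (r : ι → ℤ) (hr : ∀ i, HasPoleOfOrder (LFunction (RingHom.id ℂ) (twist ρ (χ i))) 2 (r i)) :
    |∑ i, c i * ((r i : ℝ) - finrank ℂ (twist α (χ i)).invariants)| ≤
      ((finrank ℂ V : ℝ) - finrank ℂ A) * meanNorm χ c := by
  classical
  obtain ⟨𝒰, h𝒰⟩ := Filter.exists_ultrafilter_le (𝓝[>] (1 : ℝ))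
  have h1 := dual_ultra h𝒰 ρ hρ α L hα ω hω cl hcl hclω M W χ c
  have h2 : ∀ i, mu 𝒰 (ctr (RingHom.id ℂ) (twist ρ (χ i))) = r i := by
    intro i
    have e1 := log_tendsto_mu h𝒰 (twist ρ (χ i))
      (fun 𝔭 D z hz => twist_weights hρ M (χ i) 𝔭 D z hz)
    exact tendsto_nhds_unique e1 ((hr i).tendsto.mono_left h𝒰)
  simp only [h2] at h1
  exact h1

end Main

section sparse

variable {G : Type*} [Group G] [Fintype G] {W : Type*} [AddCommGroup W] [Module ℂ W]
  [FiniteDimensional ℂ W]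

lemma meanNorm_unit (χ : Representation ℂ G W) :
    meanNorm (fun _ : Unit => χ) (fun _ => 1) = (∑ g, ‖χ.character g‖) / Fintype.card G := by
  unfold meanNorm
  rw [finsum_eq_sum_of_fintype, Nat.card_eq_fintype_card]
  simp

/-- the squares of the values of an irreducible character have mean one -/
lemma sum_norm_sq (χ : Representation ℂ G W) (hχ : χ.IsIrreducible) :
    ∑ g, ‖χ.character g‖ ^ 2 = Fintype.card G := by
  have hcard : (Nat.card G : ℂ) ≠ 0 := by exact_mod_cast Nat.card_pos.ne'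
  letI : Invertible (Nat.card G : ℂ) := invertibleOfNonzero hcard
  haveI := hχ
  have h3 := χ.char_orthonormal χ
  rw [if_pos ⟨Representation.Equiv.refl _⟩] at h3
  have h4 : ∑ g, χ.character g * χ.character g⁻¹ = (Nat.card G : ℂ) := by
    rw [← mul_inv_cancel_left₀ hcard (∑ g, χ.character g * χ.character g⁻¹), h3, mul_one]
  have h5 : ∀ g, ((‖χ.character g‖ ^ 2 : ℝ) : ℂ) = χ.character g * χ.character g⁻¹ := by
    intro g
    rw [Pool.Agent.H3.Artin.character_inv, Complex.mul_conj, Complex.normSq_eq_norm_sq]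
  have h6 : ((∑ g, ‖χ.character g‖ ^ 2 : ℝ) : ℂ) = (Fintype.card G : ℂ) := by
    rw [Complex.ofReal_sum, Finset.sum_congr rfl fun g _ => h5 g, h4, Nat.card_eq_fintype_card]
  exact_mod_cast h6

/-- the mean of the norm of an irreducible character is at most the root of the proportion of its
support -/
lemma sum_norm_le (χ : Representation ℂ G W) (hχ : χ.IsIrreducible) :
    (∑ g, ‖χ.character g‖) ^ 2 ≤ Nat.card {g : G // χ.character g ≠ 0} * Fintype.card G := by
  classical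
  have h1 : ∑ g, ‖χ.character g‖ = ∑ g ∈ Finset.univ.filter fun g => χ.character g ≠ 0,
      ‖χ.character g‖ := by
    symm
    apply Finset.sum_subset (Finset.filter_subset _ _)
    intro g _ hg
    rw [Finset.mem_filter, not_and, not_not] at hg
    rw [hg (Finset.mem_univ g), norm_zero]
  have h2 := sq_sum_le_card_mul_sum_sq (s := Finset.univ.filter fun g => χ.character g ≠ 0)
    (f := fun g => ‖χ.character g‖)
  have h3 : ∑ g ∈ Finset.univ.filter (fun g => χ.character g ≠ 0), ‖χ.character g‖ ^ 2 ≤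
      Fintype.card G := by
    rw [← sum_norm_sq χ hχ]
    exact Finset.sum_le_sum_of_subset_of_nonneg (Finset.filter_subset _ _) fun g _ _ => by positivity
  have h4 : (Finset.univ.filter fun g => χ.character g ≠ 0).card =
      Nat.card {g : G // χ.character g ≠ 0} := by
    rw [Nat.card_eq_fintype_card, Fintype.card_subtype]
  rw [h1, ← h4]
  exact h2.trans (mul_le_mul_of_nonneg_left h3 (by positivity))

end sparse

section single

variable {k : Type*} [Field k] [NumberField k] {Ω : Type*} [Field Ω] [Algebra k Ω] [IsGalois k Ω]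
variable {V A : Type*} [AddCommGroup V] [Module ℂ V] [FiniteDimensional ℂ V]
  [AddCommGroup A] [Module ℂ A] [FiniteDimensional ℂ A]
variable [IsAlgClosed Ω]

/-- twists by an irreducible character of small support -/
theorem sparse_pole
    (ρ : Representation ℂ Gal(Ω/k) V) (hρ : WeightsLeTwo (RingHom.id ℂ) ρ)
    (α : Representation ℂ Gal(Ω/k) A) (L : IntermediateField k Ω) [FiniteDimensional k L]
    [Normal k L] (hα : ∀ σ ∈ L.fixingSubgroup, α σ = 1)
    (ω : Gal(Ω/k) →* ℂ)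
    (hω : {𝔭 : HeightOneSpectrum (𝓞 k) | ω (frobeniusAt Ω 𝔭).φ⁻¹ ≠ Ideal.absNorm 𝔭.asIdeal}.Finite)
    (cl : A →ₗ[ℂ] V) (hcl : Function.Injective cl)
    (hclω : ∀ σ a, ρ σ (cl a) = ω σ • cl (α σ a))
    (M : IntermediateField k Ω) [FiniteDimensional k M] [Normal k M]
    {W : Type*} [AddCommGroup W] [Module ℂ W] [FiniteDimensional ℂ W]
    (χ : Representation ℂ Gal(M/k) W) (hχ : χ.IsIrreducible)
    (hs : (finrank ℂ V - finrank ℂ A) ^ 2 * Nat.card {g : Gal(M/k) // χ.character g ≠ 0} <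
      Nat.card Gal(M/k))
    (r : ℤ) (hr : HasPoleOfOrder (LFunction (RingHom.id ℂ) (twist ρ χ)) 2 r) :
    r = finrank ℂ (twist α χ).invariants := by
  classical
  have h1 := dual_pole ρ hρ α L hα ω hω cl hcl hclω M (fun _ : Unit => W) (fun _ => χ) (fun _ => 1)
    (fun _ => r) (fun _ => hr)
  rw [meanNorm_unit] at h1
  simp only [Finset.univ_unique, Finset.sum_singleton, one_mul] at h1
  have hle := LinearMap.finrank_le_finrank_of_injective hcl
  set B : ℕ := finrank ℂ V - finrank ℂ A with hB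
  have hBr : (finrank ℂ V : ℝ) - finrank ℂ A = B := by
    rw [hB, Nat.cast_sub hle]
  rw [hBr] at h1
  set S : ℝ := ∑ g, ‖χ.character g‖ with hS
  have hS0 : 0 ≤ S := Finset.sum_nonneg fun g _ => norm_nonneg _
  have hG : (0 : ℝ) < Fintype.card Gal(M/k) := by exact_mod_cast Fintype.card_pos
  have h2 := sum_norm_le χ hχ
  rw [← hS] at h2
  have h3 : ((B : ℝ) ^ 2 * Nat.card {g : Gal(M/k) // χ.character g ≠ 0}) <
      Fintype.card Gal(M/k) := by
    rw [← Nat.card_eq_fintype_card]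
    exact_mod_cast hs
  have h4 : ((B : ℝ) * S) ^ 2 < (Fintype.card Gal(M/k) : ℝ) ^ 2 := by
    calc ((B : ℝ) * S) ^ 2 = (B : ℝ) ^ 2 * S ^ 2 := by ring
      _ ≤ (B : ℝ) ^ 2 * (Nat.card {g : Gal(M/k) // χ.character g ≠ 0} *
          Fintype.card Gal(M/k)) := mul_le_mul_of_nonneg_left h2 (by positivity)
      _ = ((B : ℝ) ^ 2 * Nat.card {g : Gal(M/k) // χ.character g ≠ 0}) *
          Fintype.card Gal(M/k) := by ring
      _ < (Fintype.card Gal(M/k) : ℝ) * Fintype.card Gal(M/k) := mul_lt_mul_of_pos_right h3 hG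
      _ = (Fintype.card Gal(M/k) : ℝ) ^ 2 := by ring
  have h5 : (B : ℝ) * S < Fintype.card Gal(M/k) :=
    lt_of_pow_lt_pow_left₀ 2 hG.le h4
  have h6 : (B : ℝ) * (S / Fintype.card Gal(M/k)) < 1 := by
    rw [← mul_div_assoc, div_lt_one hG]
    exact h5
  have h7 : |(r : ℝ) - finrank ℂ (twist α χ).invariants| < 1 := lt_of_le_of_lt h1 h6
  have h8 : |r - (finrank ℂ (twist α χ).invariants : ℤ)| < 1 := by exact_mod_cast h7
  have h9 := Int.abs_lt_one_iff.mp h8
  omega

end single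

end Pool.Agent.H8.TW
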