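import Pool.Agent.H1.Tate.Twist

/-!
# Conjugate twists have the same L-function
-/

open NumberField IsDedekindDomain Filter Topology Polynomial

namespace Pool.Agent.H8.TW

open Pool.Agent.H1.Tate

noncomputable section

section finite

variable {F F' : Type*} [Field F] [Field F'] (e : F ≃+* F')

lemma numPoints_congr (h : F[X]) (n : ℕ) :
    numPoints F' (h.map e.toRingHom) n = numPoints F h n := by
  unfold numPoints
  congr 1
  let E : AlgebraicClosure F ≃+* AlgebraicClosure F' :=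
    IsAlgClosure.equivOfEquiv (AlgebraicClosure F) (AlgebraicClosure F') e
  have hE : (E : AlgebraicClosure F →+* AlgebraicClosure F').comp
      (algebraMap F (AlgebraicClosure F)) = (algebraMap F' (AlgebraicClosure F')).comp e.toRingHom :=
    IsAlgClosure.equivOfEquiv_comp_algebraMap (AlgebraicClosure F) (AlgebraicClosure F') e
  have hcard : Nat.card F = Nat.card F' := Nat.card_congr e.toEquiv
  have haev : ∀ z : AlgebraicClosure F, aeval (E z) (h.map e.toRingHom) = E (aeval z h) := by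
    intro z
    rw [aeval_def, aeval_def, eval₂_map, ← hE, ← RingEquiv.coe_toRingHom E, hom_eval₂]
  symm
  refine Nat.card_congr (Equiv.subtypeEquiv (Equiv.prodCongr E.toEquiv E.toEquiv) ?_)
  rintro ⟨z1, z2⟩
  simp only [Equiv.prodCongr_apply, Prod.map_apply, RingEquiv.toEquiv_eq_coe,
    EquivLike.coe_coe]
  rw [← hcard, haev, ← map_pow, ← map_pow, ← map_pow, E.injective.eq_iff, E.injective.eq_iff,
    E.injective.eq_iff]

lemma traceH1_congr (h : F[X]) (n : ℕ) :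
    traceH1 F' (h.map e.toRingHom) n = traceH1 F h n := by
  unfold traceH1
  rw [numPoints_congr, Nat.card_congr e.toEquiv]

lemma traceH2_congr (h₁ h₂ : F[X]) (n : ℕ) :
    traceH2 F' (h₁.map e.toRingHom) (h₂.map e.toRingHom) n = traceH2 F h₁ h₂ n := by
  unfold traceH2
  rw [traceH1_congr, traceH1_congr, Nat.card_congr e.toEquiv]

end finite

section primes

variable {K : Type*} [Field K] [NumberField K] (σ : 𝓞 K ≃+* 𝓞 K)

/-- the action of an automorphism on the primes -/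
abbrev act : HeightOneSpectrum (𝓞 K) ≃ HeightOneSpectrum (𝓞 K) :=
  HeightOneSpectrum.equivOfRingEquiv σ

lemma act_asIdeal (v : HeightOneSpectrum (𝓞 K)) :
    (act σ v).asIdeal = v.asIdeal.comap (σ.symm : 𝓞 K →+* 𝓞 K) := rfl

lemma map_asIdeal (v : HeightOneSpectrum (𝓞 K)) :
    (act σ v).asIdeal = v.asIdeal.map (σ : 𝓞 K →+* 𝓞 K) := by
  rw [act_asIdeal]
  exact Ideal.comap_symm σ

/-- the isomorphism of residue rings -/
def resEquiv (v : HeightOneSpectrum (𝓞 K)) :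
    (𝓞 K ⧸ v.asIdeal) ≃+* (𝓞 K ⧸ (act σ v).asIdeal) :=
  Ideal.quotientEquiv _ _ σ (map_asIdeal σ v)

lemma resEquiv_mk (v : HeightOneSpectrum (𝓞 K)) (x : 𝓞 K) :
    resEquiv σ v (Ideal.Quotient.mk v.asIdeal x) = Ideal.Quotient.mk (act σ v).asIdeal (σ x) := rfl

lemma map_mk_act (v : HeightOneSpectrum (𝓞 K)) (h : (𝓞 K)[X]) :
    (h.map (σ : 𝓞 K →+* 𝓞 K)).map (Ideal.Quotient.mk (act σ v).asIdeal) =
      (h.map (Ideal.Quotient.mk v.asIdeal)).map (resEquiv σ v).toRingHom := by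
  rw [Polynomial.map_map, Polynomial.map_map]
  rfl

lemma absNorm_act (v : HeightOneSpectrum (𝓞 K)) :
    Ideal.absNorm (act σ v).asIdeal = Ideal.absNorm v.asIdeal := by
  rw [Ideal.absNorm_apply, Ideal.absNorm_apply]
  exact (Nat.card_congr (resEquiv σ v).toEquiv).symm

lemma frobTrace_act (v : HeightOneSpectrum (𝓞 K)) (h₁ h₂ : (𝓞 K)[X]) (n : ℕ) :
    frobTrace (h₁.map (σ : 𝓞 K →+* 𝓞 K)) (h₂.map (σ : 𝓞 K →+* 𝓞 K)) (act σ v) n =
      frobTrace h₁ h₂ v n := by
  unfold frobTrace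
  rw [map_mk_act, map_mk_act]
  let _ := Ideal.Quotient.field v.asIdeal
  let _ := Ideal.Quotient.field (act σ v).asIdeal
  exact traceH2_congr (F := 𝓞 K ⧸ v.asIdeal) (F' := 𝓞 K ⧸ (act σ v).asIdeal) (resEquiv σ v) _ _ n

lemma goodAt_act (v : HeightOneSpectrum (𝓞 K)) (h : (𝓞 K)[X]) :
    GoodAt (h.map (σ : 𝓞 K →+* 𝓞 K)) (act σ v) ↔ GoodAt h v := by
  unfold GoodAt
  rw [map_mk_act]
  let _ := Ideal.Quotient.field v.asIdeal
  let _ := Ideal.Quotient.field (act σ v).asIdeal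
  have h1 : ((2 : 𝓞 K) ∈ (act σ v).asIdeal) ↔ (2 : 𝓞 K) ∈ v.asIdeal := by
    rw [act_asIdeal]
    change σ.symm 2 ∈ v.asIdeal ↔ _
    rw [map_ofNat]
  have h2 : (h.map (σ : 𝓞 K →+* 𝓞 K)).natDegree = h.natDegree :=
    natDegree_map_eq_of_injective (RingEquiv.injective σ) h
  have h3 : ((h.map (Ideal.Quotient.mk v.asIdeal)).map (resEquiv σ v).toRingHom).natDegree =
      (h.map (Ideal.Quotient.mk v.asIdeal)).natDegree :=
    natDegree_map_eq_of_injective (RingEquiv.injective (resEquiv σ v)) _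
  have h4 : ((h.map (Ideal.Quotient.mk v.asIdeal)).map (resEquiv σ v).toRingHom).Separable ↔
      (h.map (Ideal.Quotient.mk v.asIdeal)).Separable :=
    Polynomial.separable_map (F := 𝓞 K ⧸ v.asIdeal) (S := 𝓞 K ⧸ (act σ v).asIdeal)
      (resEquiv σ v).toRingHom
  rw [h1, h2, h3, h4]

theorem L2_act (h₁ h₂ : (𝓞 K)[X]) (bad : HeightOneSpectrum (𝓞 K) → Multiset ℂ) (s : ℂ) :
    L2 (h₁.map (σ : 𝓞 K →+* 𝓞 K)) (h₂.map (σ : 𝓞 K →+* 𝓞 K)) bad s =
      L2 h₁ h₂ (fun v => bad (act σ v)) s := by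
  unfold L2
  rw [← Equiv.tprod_eq (act σ)]
  refine tprod_congr fun v => ?_
  rw [goodAt_act, goodAt_act, absNorm_act]
  simp only [frobTrace_act]

end primes

end

end Pool.Agent.H8.TW
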